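import Pool.Agent.Helper45.Bern.Final

/-!
# MP_1b8a6f_an, Q1: the exact value of `I(α)` for `0 < α ≤ 2/5`
-/

set_option autoImplicit false

namespace Pool.Agent.Results.MP_1b8a6f_an.ExactValue

open Pool.Agent.Helper45.Bern

/-- For `0 < α ≤ 2/5` the function `Ψ_α(c) = ∫₀¹ (1-ξ)^α J₀(c √(1-ξ²)) dξ` has exactly one zero
`c` in `(0, π)` and `I(α) = G_α(c)`, the largest value of
`G_α(c) = ∫₀¹ (1-ξ)^α c J₁(c √(1-ξ²)) / √(1-ξ²) dξ`. -/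
theorem result (α : ℝ) (h0 : 0 < α) (h1 : α ≤ 2 / 5) :
    ∃ c ∈ Set.Ioo (0 : ℝ) Real.pi, bernPsi α c = 0 ∧
      (∀ c' ∈ Set.Ioo (0 : ℝ) Real.pi, bernPsi α c' = 0 → c' = c) ∧
      bernsteinNorm α = bernG α c ∧ IsGreatest (Set.range (bernG α)) (bernsteinNorm α) := by
  obtain ⟨c, hc0, hc, hΨ, hE⟩ := Pool.Agent.Helper5.Bern.exists_param h0 h1
  exact value_of_param h0 hc0 hc hΨ hE

end Pool.Agent.Results.MP_1b8a6f_an.ExactValue
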