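import Pool.Agent.Helper78.BernUpper

/-!
# MP_1b8a6f_an: an explicit upper bound for `I(α)`

`bernsteinNorm α` is `I(α)`: the infimum of the total variations of the complex Borel measures on
`ℝ` whose Fourier-Stieltjes transform is `(1 - |ξ|)^α` on `[-1, 1]`.
-/

namespace Pool.Agent.Results.MP_1b8a6f_an.ExplicitUpper

open Pool.Agent.Helper45.Bern

/-- `I(α) ≤ 1 + 5 (Γ(α) cos(πα/2))^{1/(1-α)}` for every `0 < α < 1`. -/
theorem result (α : ℝ) (hα : 0 < α) (hα1 : α < 1) :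
    bernsteinNorm α ≤ 1 + 5 * (Real.Gamma α * Real.cos (Real.pi * α / 2)) ^ (1 / (1 - α)) :=
  Pool.Agent.Helper78.Bern.bernsteinNorm_upper hα hα1

end Pool.Agent.Results.MP_1b8a6f_an.ExplicitUpper
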