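import Pool.Agent.Helper30.FG.G9

/-!
# MP_1b8a6f_an: `I(α)` for every `0 < α < 1` through a finite-gap system with a unique solution
-/

set_option autoImplicit false

namespace Pool.Agent.Results.MP_1b8a6f_an.FiniteGapSystem

open Pool.Agent.Helper30.FG Pool.Agent.Helper45.Bern Polynomial

/-- For every `0 < α < 1` the finite-gap system `FiniteGap s K Q`, `Critical α s` has exactly one
solution `s` up to sign, and `I(α) = L(1 - 2 s²)`. -/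
theorem result {α : ℝ} (h0 : 0 < α) (h1 : α < 1) :
    1 < bernsteinNorm α ∧
    (∀ g, Ball 1 g → lam α g ≤ bernsteinNorm α ∧
      ∀ μ, Admissible α μ → pairing μ g = ((lam α g : ℝ) : ℂ)) ∧
    (∀ t L R, FiniteGap t L R → (∀ u, FiniteGap u L R → u = t ∨ u = -t) ∧
      {c : ℝ | t (c : ℂ) * deriv t (c : ℂ) = 0 ∧ lam α (quot t c) ≤ 0}.Finite) ∧
    ∃ (s : ℂ → ℂ) (K : Finset ℝ) (Q : ℝ[X]), FiniteGap s K Q ∧ Critical α s ∧
      (∀ t L R, FiniteGap t L R → Critical α t → t = s ∨ t = -s) ∧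
      lam α (fun z => 1 - 2 * s z ^ 2) = bernsteinNorm α ∧
      (∀ g, Ball 1 g → lam α g = bernsteinNorm α → g = fun z => 1 - 2 * s z ^ 2) ∧
      (∀ x : ℝ, 0 < Q.eval x) ∧
      (∃ θ : ℝ, ∀ x : ℝ, s (x : ℂ) = ((Real.cos (θ + 1 / 2 * ∫ t in (0 : ℝ)..x,
          (∏ k ∈ K, (t - k)) / √(Q.eval t)) : ℝ) : ℂ)) ∧
      ∃ μ : MeasureTheory.ComplexMeasure ℝ, Admissible α μ ∧ totalVar μ = bernsteinNorm α ∧
        (∀ ν : MeasureTheory.ComplexMeasure ℝ, Admissible α ν →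
          totalVar ν = bernsteinNorm α → ν = μ) ∧
        (∀ A : Set ℝ, MeasurableSet A →
          (∀ x ∈ A, s (x : ℂ) ≠ 0 ∧ ‖s (x : ℂ)‖ < 1) → μ A = 0) ∧
        (∀ x : ℝ, ∃ m : ℝ, 0 ≤ m ∧ μ {x} = ((m : ℝ) : ℂ) * (1 - 2 * s (x : ℂ) ^ 2)) ∧
        ∀ c : ℝ, s (c : ℂ) * deriv s (c : ℂ) = 0 →
          deriv (fun z => s z * deriv s z) (c : ℂ) * μ {c} = ((lam α (quot s c) : ℝ) : ℂ) :=
  finite_gap_theorem' h0 h1

end Pool.Agent.Results.MP_1b8a6f_an.FiniteGapSystem
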