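import Pool.Agent.Helper78.BernUpper
import Pool.Agent.Helper78.BernLower

/-!
# MP_1b8a6f_an: the size of `I(α) - 1` as `α → 1`

`bernsteinNorm α` is `I(α)`: the infimum of the total variations of the complex Borel measures on
`ℝ` whose Fourier-Stieltjes transform is `(1 - |ξ|)^α` on `[-1, 1]`.
-/

namespace Pool.Agent.Results.MP_1b8a6f_an.NearOne

open Real Filter Topology Pool.Agent.Helper45.Bern Pool.Agent.Helper78.Bern

lemma tendsto_one_sub : Tendsto (fun α : ℝ => 1 - α) (𝓝[<] 1) (𝓝[>] 0) := by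
  apply tendsto_nhdsWithin_of_tendsto_nhds_of_eventually_within
  · have : Tendsto (fun α : ℝ => 1 - α) (𝓝 1) (𝓝 (1 - 1)) :=
      (continuous_const.sub continuous_id).tendsto 1
    rw [sub_self] at this
    exact this.mono_left nhdsWithin_le_nhds
  · filter_upwards [self_mem_nhdsWithin] with α hα
    have : α < 1 := hα
    exact sub_pos.2 this

lemma one_le_bernsteinNorm {α : ℝ} (hα : 0 < α) (hα1 : α < 1) : 1 ≤ bernsteinNorm α := by
  unfold bernsteinNorm
  apply le_csInf
  · obtain ⟨μ, hμ⟩ := admissible_nonempty hα hα1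
    exact ⟨_, μ, hμ, rfl⟩
  · rintro r ⟨μ, hμ, rfl⟩
    have := lower_finite hμ (∅ : Finset ℕ) (fun _ => 0) (fun _ => 0) (by simp) (by simp) (by simp)
    simpa using this

lemma gConst_div_tendsto : Tendsto (fun α : ℝ => gConst α / (1 - α)) (𝓝[<] 1) (𝓝 (π / 2)) := by
  have h1 : Tendsto (fun α : ℝ => Real.Gamma α) (𝓝[<] 1) (𝓝 1) := by
    have : ContinuousAt Real.Gamma 1 := by
      apply (Real.differentiableAt_Gamma (fun m => ?_)).continuousAt
      have : (0 : ℝ) ≤ m := Nat.cast_nonneg m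
      linarith
    have h := this.tendsto
    rw [Real.Gamma_one] at h
    exact h.mono_left nhdsWithin_le_nhds
  have h2 : Tendsto (fun ε : ℝ => sin (π / 2 * ε) / ε) (𝓝[>] 0) (𝓝 (π / 2)) := by
    have hd : HasDerivAt (fun ε : ℝ => sin (π / 2 * ε)) (π / 2) 0 := by
      have h3 : HasDerivAt (fun s : ℝ => π / 2 * s) (π / 2) 0 := by
        simpa using (hasDerivAt_id (0 : ℝ)).const_mul (π / 2)
      have h4 := h3.sin
      simpa using h4
    have h4 := hd.tendsto_slope_zero_right
    refine h4.congr (fun ε => ?_)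
    simp only [zero_add, mul_zero, sin_zero, sub_zero, smul_eq_mul]
    ring
  have h3 := h1.mul (h2.comp tendsto_one_sub)
  rw [one_mul] at h3
  refine h3.congr' ?_
  filter_upwards [self_mem_nhdsWithin] with α _
  simp only [Function.comp, gConst]
  have : cos (π * α / 2) = sin (π / 2 * (1 - α)) := by
    rw [← cos_pi_div_two_sub]; ring_nf
  rw [this]; ring

lemma const_rpow_tendsto {c : ℝ} (hc : 0 < c) :
    Tendsto (fun α : ℝ => c ^ (1 - α)) (𝓝[<] 1) (𝓝 1) := by
  have h : Tendsto (fun ε : ℝ => c ^ ε) (𝓝 0) (𝓝 (c ^ (0 : ℝ))) :=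
    (Real.continuous_const_rpow hc.ne').tendsto 0
  rw [rpow_zero] at h
  exact (h.mono_left nhdsWithin_le_nhds).comp tendsto_one_sub

/-- `(I(α) - 1)^{1-α} / (1-α) → π/2` as `α → 1⁻`. -/
theorem result :
    Filter.Tendsto (fun α : ℝ => (bernsteinNorm α - 1) ^ (1 - α) / (1 - α))
      (nhdsWithin 1 (Set.Iio 1)) (nhds (Real.pi / 2)) := by
  have hev0 : ∀ᶠ α : ℝ in 𝓝[<] 1, 0 < α := by
    have : Tendsto (fun α : ℝ => α) (𝓝[<] 1) (𝓝 1) := tendsto_id.mono_left nhdsWithin_le_nhds
    exact this.eventually_const_lt one_pos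
  rw [tendsto_order]
  constructor
  · intro a ha
    -- choose r
    obtain ⟨r, hr1, hr2⟩ := exists_between (max_lt ha (by positivity : (0 : ℝ) < π / 2))
    have har : a < r := (le_max_left _ _).trans_lt hr1
    have hr0 : 0 < r := (le_max_right _ _).trans_lt hr1
    obtain ⟨δ, hδ, hev⟩ := lower_asymp hr0 hr2
    have hev' := tendsto_one_sub.eventually hev
    have hlim : Tendsto (fun α : ℝ => δ ^ (1 - α) * r) (𝓝[<] 1) (𝓝 (1 * r)) :=
      (const_rpow_tendsto hδ).mul_const r
    rw [one_mul] at hlim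
    filter_upwards [hev', hlim.eventually_const_lt har, hev0, self_mem_nhdsWithin]
      with α h1 h2 h3 h4
    have h4' : α < 1 := h4
    have hε : 0 < 1 - α := by linarith
    have hlow : 1 + δ * sc r (1 - α) ≤ bernsteinNorm α := by
      unfold bernsteinNorm
      apply le_csInf
      · obtain ⟨μ, hμ⟩ := admissible_nonempty h3 h4'
        exact ⟨_, μ, hμ, rfl⟩
      · rintro s ⟨μ, hμ, rfl⟩
        exact h1 μ (by rwa [sub_sub_cancel])
    have hsc := sc_pos hr0 hε
    have h5 : (δ * sc r (1 - α)) ^ (1 - α) ≤ (bernsteinNorm α - 1) ^ (1 - α) :=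
      rpow_le_rpow (by positivity) (by linarith) hε.le
    have h6 : (δ * sc r (1 - α)) ^ (1 - α) = δ ^ (1 - α) * r * (1 - α) := by
      rw [mul_rpow hδ.le hsc.le, sc_rpow hr0 hε]; ring
    rw [h6] at h5
    calc a < δ ^ (1 - α) * r := h2
      _ ≤ (bernsteinNorm α - 1) ^ (1 - α) / (1 - α) := by rwa [le_div_iff₀ hε]
  · intro a ha
    have hlim : Tendsto (fun α : ℝ => (5 : ℝ) ^ (1 - α) * (gConst α / (1 - α))) (𝓝[<] 1)
        (𝓝 (1 * (π / 2))) := (const_rpow_tendsto (by norm_num)).mul gConst_div_tendsto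
    rw [one_mul] at hlim
    filter_upwards [hlim.eventually_lt_const ha, hev0, self_mem_nhdsWithin] with α h2 h3 h4
    have h4' : α < 1 := h4
    have hε : 0 < 1 - α := by linarith
    refine lt_of_le_of_lt ?_ h2
    have hG := gConst_pos h3 h4'
    have h5 : (bernsteinNorm α - 1) ^ (1 - α) ≤ (5 * gConst α ^ (1 / (1 - α))) ^ (1 - α) :=
      rpow_le_rpow (by linarith [one_le_bernsteinNorm h3 h4'])
        (by linarith [bernsteinNorm_upper h3 h4']) hε.le
    have h6 : (5 * gConst α ^ (1 / (1 - α))) ^ (1 - α) = 5 ^ (1 - α) * gConst α := by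
      rw [mul_rpow (by norm_num) (by positivity), ← rpow_mul hG.le, one_div_mul_cancel hε.ne',
        rpow_one]
    rw [h6] at h5
    calc (bernsteinNorm α - 1) ^ (1 - α) / (1 - α) ≤ 5 ^ (1 - α) * gConst α / (1 - α) := by
          gcongr
      _ = 5 ^ (1 - α) * (gConst α / (1 - α)) := by ring

end Pool.Agent.Results.MP_1b8a6f_an.NearOne
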